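import Mathlib
import Pool.Agent.E8helper1.TX.Pre

/-!
# Systems of tensors: the short list of axioms implies the long one
-/

set_option autoImplicit false
set_option linter.unusedSectionVars false

namespace Pool.Agent.E8helper26.TX

open Matrix Pool.Agent.E8helper1.TX

variable {n : Type} [Fintype n] [DecidableEq n] {m k : ℕ}

theorem perm_mul_apply (σ : Equiv.Perm (Fin m)) (X : Op n m) (I J : Fin m → n) :
    (perm σ * X : Op n m) I J = X (I ∘ ⇑σ⁻¹) J := by
  rw [Matrix.mul_apply, Finset.sum_eq_single (I ∘ ⇑σ⁻¹)]
  · unfold perm
    rw [if_pos, one_mul]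
    funext i
    simp
  · intro K _ hK
    unfold perm
    rw [if_neg, zero_mul]
    rintro rfl
    apply hK
    funext i
    simp
  · intro h
    exact absurd (Finset.mem_univ _) h

theorem mul_perm_apply (σ : Equiv.Perm (Fin m)) (X : Op n m) (I J : Fin m → n) :
    (X * perm σ : Op n m) I J = X I (J ∘ ⇑σ) := by
  rw [Matrix.mul_apply, Finset.sum_eq_single (J ∘ ⇑σ)]
  · unfold perm
    rw [if_pos rfl, mul_one]
  · intro K _ hK
    unfold perm
    rw [if_neg hK, mul_zero]
  · intro h
    exact absurd (Finset.mem_univ _) h

theorem perm_mul_perm (σ τ : Equiv.Perm (Fin m)) :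
    (perm σ * perm τ : Op n m) = perm (τ * σ) := by
  ext I J
  rw [mul_perm_apply]
  unfold perm
  rfl

theorem perm_one : (perm (1 : Equiv.Perm (Fin m)) : Op n m) = 1 := by
  ext I J
  unfold perm
  rw [Matrix.one_apply]
  rfl

/-- Conjugation by a permutation. -/
theorem conj_apply (σ : Equiv.Perm (Fin m)) (X : Op n m) (I J : Fin m → n) :
    (perm σ⁻¹ * X * perm σ : Op n m) I J = X (I ∘ ⇑σ) (J ∘ ⇑σ) := by
  rw [mul_perm_apply, perm_mul_apply, inv_inv]

theorem oneT_perm (σ : Equiv.Perm (Fin m)) (τ : Equiv.Perm (Fin (m + 1))) (h0 : τ 0 = 0)
    (h : ∀ i : Fin m, τ i.succ = (σ i).succ) : (oneT (perm σ) : Op n (m + 1)) = perm τ := by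
  ext I J
  unfold oneT perm
  by_cases hI : I = J ∘ ⇑τ
  · rw [if_pos hI, if_pos, if_pos]
    · funext i
      rw [hI]
      simp [h]
    · rw [hI]
      simp [h0]
  · rw [if_neg hI]
    split_ifs with h1 h2
    · exfalso
      apply hI
      funext i
      refine Fin.cases ?_ (fun j => ?_) i
      · simp [h0, h1]
      · have := congrFun h2 j
        simpa [h] using this
    · rfl
    · rfl

variable (P : PSys n)

theorem swap_mem : ∀ (m : ℕ) (i : Fin m),
    perm (Equiv.swap i.castSucc i.succ) ∈ P.S (m + 1)
  | 0, i => i.elim0
  | 1, i => by
      have : i = 0 := Subsingleton.elim _ _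
      subst this
      exact P.sw_mem 0
  | (m + 2), i => by
      refine Fin.cases ?_ (fun j => ?_) i
      · exact P.sw_mem (m + 1)
      · have := P.oneT_mem (swap_mem (m + 1) j)
        rw [oneT_perm (τ := Equiv.swap j.succ.castSucc j.succ.succ)] at this
        · exact this
        · rw [Equiv.swap_apply_of_ne_of_ne]
          · exact fun h => by
              have := congrArg Fin.val h
              simp at this
          · exact fun h => by
              have := congrArg Fin.val h
              simp at this
        · intro i
          rw [← Fin.succ_castSucc]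
          rw [Equiv.swap_apply_def, Equiv.swap_apply_def]
          simp only [Fin.succ_inj]
          split_ifs <;> rfl

theorem perm_mem : ∀ {m : ℕ} (σ : Equiv.Perm (Fin m)), perm σ ∈ P.S m
  | 0, σ => by
      have : σ = 1 := Subsingleton.elim _ _
      rw [this, perm_one]
      exact P.one_mem 0
  | (m + 1), σ => by
      have h := Equiv.Perm.mclosure_swap_castSucc_succ m
      have hσ : σ ∈ (⊤ : Submonoid (Equiv.Perm (Fin (m + 1)))) := trivial
      rw [← h] at hσ
      refine Submonoid.closure_induction (motive := fun τ _ => perm τ ∈ P.S (m + 1)) ?_ ?_ ?_ hσ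
      · rintro _ ⟨i, rfl⟩
        exact swap_mem P m i
      · rw [perm_one]
        exact P.one_mem _
      · intro x y _ _ hx hy
        rw [← perm_mul_perm]
        exact P.mul_mem hy hx

theorem conj_mem (σ : Equiv.Perm (Fin m)) {X : Op n m} (hX : X ∈ P.S m) :
    X.submatrix (fun I => I ∘ ⇑σ) (fun I => I ∘ ⇑σ) ∈ P.S m := by
  have : X.submatrix (fun I => I ∘ ⇑σ) (fun I => I ∘ ⇑σ) = perm σ⁻¹ * X * perm σ := by
    ext I J
    rw [conj_apply]
    rfl
  rw [this]
  exact P.mul_mem (P.mul_mem (perm_mem P _) hX) (perm_mem P _)

/-- The operator `B` placed on the factors given by `e`. -/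
def emb {N : ℕ} (e : Fin k → Fin N) (B : Op n k) : Op n N :=
  fun I J => if ∀ i, (∀ j, e j ≠ i) → I i = J i then B (I ∘ e) (J ∘ e) else 0

theorem emb_mem : ∀ (N : ℕ) (e : Fin k → Fin N) (_ : Function.Injective e) {B : Op n k}
    (_ : B ∈ P.S k), emb e B ∈ P.S N := by
  intro N
  induction N with
  | zero =>
      intro e he B hB
      have hk : k = 0 := by
        rcases Nat.eq_zero_or_pos k with h | h
        · exact h
        · exact (e ⟨0, h⟩).elim0
      subst hk
      have : emb e B = B := by
        ext I J
        unfold emb
        rw [if_pos (fun i => i.elim0)]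
        congr 1
        · exact Subsingleton.elim _ _
        · exact Subsingleton.elim _ _
      rw [this]
      exact hB
  | succ N ih =>
      intro e he B hB
      by_cases hs : Function.Surjective e
      · have hk : k = N + 1 := by
          have := Fintype.card_of_bijective ⟨he, hs⟩
          simpa using this
        subst hk
        have := conj_mem P (Equiv.ofBijective e ⟨he, hs⟩) hB
        refine Eq.subst (motive := fun X => X ∈ P.S (N + 1)) ?_ this
        ext I J
        unfold emb
        rw [if_pos]
        · rfl
        · intro i hi
          obtain ⟨j, hj⟩ := hs i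
          exact absurd hj (hi j)
      · unfold Function.Surjective at hs
        push Not at hs
        obtain ⟨a, ha⟩ := hs
        have h1 : ∀ j, Equiv.swap 0 a (e j) ≠ 0 := by
          intro j hj
          rw [Equiv.swap_apply_eq_iff, Equiv.swap_apply_left] at hj
          exact ha j hj
        have h2 : Function.Injective (fun j => (Equiv.swap 0 a (e j)).pred (h1 j)) := by
          intro j j' h
          simpa using he ((Equiv.swap 0 a).injective (by simpa using h))
        have h3 := P.oneT_mem (ih _ h2 hB)
        have h4 := conj_mem P (Equiv.swap 0 a) h3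
        refine Eq.subst (motive := fun X => X ∈ P.S (N + 1)) ?_ h4
        ext I J
        symm
        rw [Matrix.submatrix_apply]
        unfold emb oneT
        have e1 : ∀ j, ((Equiv.swap 0 a (e j)).pred (h1 j)).succ = Equiv.swap 0 a (e j) :=
          fun j => Fin.succ_pred _ _
        have e2 : ∀ K : Fin (N + 1) → n, (fun i : Fin N => (K ∘ ⇑(Equiv.swap 0 a)) i.succ) ∘
            (fun j => (Equiv.swap 0 a (e j)).pred (h1 j)) = K ∘ e := by
          intro K
          funext j
          simp only [Function.comp_apply, e1, Equiv.swap_apply_self]
        beta_reduce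
        rw [e2, e2]
        by_cases hc : ∀ i, (∀ j, e j ≠ i) → I i = J i
        · rw [if_pos hc, if_pos, if_pos]
          · intro i hi
            apply hc
            intro j hj
            apply hi j
            rw [Fin.pred_eq_iff_eq_succ, hj, Equiv.swap_apply_self]
          · simpa using hc a ha
        · rw [if_neg hc]
          split_ifs with h5 h6
          · exfalso
            apply hc
            intro i hi
            rcases eq_or_ne (Equiv.swap 0 a i) 0 with h | h
            · rw [Equiv.swap_apply_eq_iff, Equiv.swap_apply_left] at h
              rw [h]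
              simpa using h5
            · have := h6 ((Equiv.swap 0 a i).pred h) (by
                intro j hj
                rw [Fin.pred_inj] at hj
                exact hi j ((Equiv.swap 0 a).injective hj))
              simpa using this
          · rfl
          · rfl

theorem tens_eq (A : Op n m) (B : Op n k) :
    tens A B = emb (Fin.castAdd k) A * emb (Fin.natAdd m) B := by
  ext I J
  rw [Matrix.mul_apply, Finset.sum_eq_single
    (Fin.append (fun i => J (Fin.castAdd k i)) (fun j => I (Fin.natAdd m j)))]
  · unfold tens emb
    rw [if_pos, if_pos]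
    · congr 1
      · congr 1
        funext i
        simp
      · congr 1
        funext i
        simp
    · intro i
      refine Fin.addCases (fun j _ => by simp) (fun j hj => ?_) i
      exact absurd rfl (hj j)
    · intro i
      refine Fin.addCases (fun j hj => ?_) (fun j _ => by simp) i
      exact absurd rfl (hj j)
  · intro K _ hK
    unfold emb
    split_ifs with h1 h2
    · exfalso
      apply hK
      funext i
      refine Fin.addCases (fun j => ?_) (fun j => ?_) i
      · rw [Fin.append_left]
        apply h2
        intro j' hj'
        have := congrArg Fin.val hj'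
        simp at this
        omega
      · rw [Fin.append_right]
        symm
        apply h1
        intro j' hj'
        have := congrArg Fin.val hj'
        simp at this
        omega
    · rw [mul_zero]
    · rw [zero_mul]
    · rw [zero_mul]
  · intro h
    exact absurd (Finset.mem_univ _) h

/-- The partial trace over the last factor. -/
theorem trR_mem {A : Op n (m + 1)} (hA : A ∈ P.S (m + 1)) :
    (fun I J => ∑ a : n, A (Fin.snoc I a) (Fin.snoc J a) : Op n m) ∈ P.S m := by
  have h := P.trL_mem (conj_mem P (finRotate (m + 1)) hA)
  refine Eq.subst (motive := fun X => X ∈ P.S m) ?_ h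
  ext I J
  unfold trL
  refine Finset.sum_congr rfl fun a _ => ?_
  rw [Matrix.submatrix_apply]
  rw [Fin.snoc_eq_cons_rotate, Fin.snoc_eq_cons_rotate]
  rfl

theorem ptr_mem : ∀ {m k : ℕ} {A : Op n (m + k)}, A ∈ P.S (m + k) → ptr A ∈ P.S m := by
  intro m k
  induction k with
  | zero =>
      intro A hA
      have : ptr A = A := by
        ext I J
        unfold ptr
        rw [Fintype.sum_unique]
        congr 1
        · funext i
          exact Fin.append_left I _ i
        · funext i
          exact Fin.append_left J _ i
      rw [this]
      exact hA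
  | succ k ih =>
      intro A hA
      have := ih (trR_mem P (m := m + k) hA)
      refine Eq.subst (motive := fun X => X ∈ P.S m) ?_ this
      ext I J
      unfold ptr
      symm
      rw [← (Fin.snocEquiv (fun _ => n)).sum_comp, Fintype.sum_prod_type, Finset.sum_comm]
      refine Finset.sum_congr rfl fun L _ => Finset.sum_congr rfl fun a _ => ?_
      rw [← Fin.append_snoc, ← Fin.append_snoc]
      rfl

theorem t_PRE : S_PRE := by
  intro n _ _ P
  exact ⟨{
    S := P.S
    perm_mem := perm_mem P
    mul_mem := P.mul_mem
    star_mem := P.star_mem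
    tens_mem := by
      intro m k A B hA hB
      rw [tens_eq]
      exact P.mul_mem (emb_mem P _ _ (Fin.castAdd_injective m k) hA)
        (emb_mem P _ _ (Fin.natAdd_injective k m) hB)
    ptr_mem := ptr_mem P }, rfl⟩

end Pool.Agent.E8helper26.TX
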