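import Mathlib
import Pool.Agent.E8helper26.TX.PRE

/-!
# Systems of tensors: change of the basis
-/

set_option autoImplicit false
set_option linter.unusedSectionVars false

namespace Pool.Agent.E8helper26.TX

open Matrix Pool.Agent.E8helper1.TX
open scoped ComplexOrder Kronecker MatrixOrder

variable {n : Type} [Fintype n] [DecidableEq n] {m k : ℕ}

theorem tpow_mul (g h : Matrix n n ℂ) : tpow (g * h) m = tpow g m * tpow h m := by
  ext I J
  rw [Matrix.mul_apply]
  unfold tpow
  simp only [Matrix.mul_apply, ← Finset.prod_mul_distrib]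
  exact Finset.prod_univ_sum (fun _ => Finset.univ) (fun i k => g (I i) k * h k (J i)) |>.trans
    (Finset.sum_congr (Fintype.piFinset_univ) fun _ _ => rfl)

theorem tpow_one : tpow (1 : Matrix n n ℂ) m = 1 := by
  ext I J
  unfold tpow
  by_cases h : I = J
  · subst h
    simp
  · rw [Matrix.one_apply_ne h]
    obtain ⟨i, hi⟩ := Function.ne_iff.mp h
    exact Finset.prod_eq_zero (Finset.mem_univ i) (Matrix.one_apply_ne hi)

theorem tpow_conjTranspose (g : Matrix n n ℂ) : (tpow g m)ᴴ = tpow gᴴ m := by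
  ext I J
  rw [Matrix.conjTranspose_apply]
  unfold tpow
  simp [Matrix.conjTranspose_apply]

theorem tpow_inv_mul (g : Matrix n n ℂ) (hg : IsUnit g.det) : tpow g⁻¹ m * tpow g m = 1 := by
  rw [← tpow_mul, Matrix.nonsing_inv_mul _ hg, tpow_one]

theorem tpow_mul_inv (g : Matrix n n ℂ) (hg : IsUnit g.det) : tpow g m * tpow g⁻¹ m = 1 := by
  rw [← tpow_mul, Matrix.mul_nonsing_inv _ hg, tpow_one]

/-- The operator `a ⊗ X`. -/
def consT (a : Matrix n n ℂ) (X : Op n m) : Op n (m + 1) :=
  fun I J => a (I 0) (J 0) * X (fun i => I i.succ) (fun i => J i.succ)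

theorem consT_cons (a : Matrix n n ℂ) (X : Op n m) (b c : n) (I J : Fin m → n) :
    consT a X (Fin.cons b I : Fin (m + 1) → n) (Fin.cons c J : Fin (m + 1) → n) =
      a b c * X I J := rfl

theorem sum_cons (f : (Fin (m + 1) → n) → ℂ) :
    ∑ K, f K = ∑ b : n, ∑ K : Fin m → n, f (Fin.cons b K : Fin (m + 1) → n) := by
  rw [← (Fin.consEquiv (fun _ => n)).sum_comp, Fintype.sum_prod_type]
  rfl

theorem ext_cons {A B : Op n (m + 1)} (h : ∀ (b c : n) (I J : Fin m → n),
    A (Fin.cons b I : Fin (m + 1) → n) (Fin.cons c J : Fin (m + 1) → n) =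
    B (Fin.cons b I : Fin (m + 1) → n) (Fin.cons c J : Fin (m + 1) → n)) : A = B := by
  ext I J
  have := h (I 0) (J 0) (Fin.tail I) (Fin.tail J)
  rwa [Fin.cons_self_tail, Fin.cons_self_tail] at this

theorem consT_mul (a b : Matrix n n ℂ) (X Y : Op n m) :
    consT a X * consT b Y = consT (a * b) (X * Y) := by
  refine ext_cons fun b' c' I J => ?_
  rw [Matrix.mul_apply, sum_cons, consT_cons]
  rw [Matrix.mul_apply, Matrix.mul_apply, Finset.sum_mul_sum]
  refine Finset.sum_congr rfl fun c _ => Finset.sum_congr rfl fun K _ => ?_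
  rw [consT_cons, consT_cons]
  ring

theorem oneT_eq (X : Op n m) : oneT X = consT 1 X := by
  ext I J
  unfold oneT consT
  rw [Matrix.one_apply]
  split_ifs with h
  · rw [one_mul]
  · rw [zero_mul]

theorem consT_one_one : (consT (1 : Matrix n n ℂ) (1 : Op n m)) = 1 := by
  refine ext_cons fun b c I J => ?_
  rw [consT_cons, Matrix.one_apply, Matrix.one_apply, Matrix.one_apply]
  by_cases h : b = c
  · subst h
    rw [if_pos rfl, one_mul]
    by_cases h2 : I = J
    · subst h2
      simp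
    · rw [if_neg h2, if_neg]
      intro h3
      exact h2 (Fin.cons_right_injective (α := fun _ => n) b h3)
  · rw [if_neg h, zero_mul, if_neg]
    intro h3
    exact h (by simpa using congrFun h3 0)

theorem tpow_succ (g : Matrix n n ℂ) : tpow g (m + 1) = consT g (tpow g m) := by
  ext I J
  unfold tpow consT
  rw [Fin.prod_univ_succ]

theorem trL_apply (A : Op n (m + 1)) (I J : Fin m → n) : trL A I J =
    ∑ a : n, A (Fin.cons a I : Fin (m + 1) → n) (Fin.cons a J : Fin (m + 1) → n) := rfl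

theorem trL_left (X : Op n m) (A : Op n (m + 1)) : trL (consT 1 X * A) = X * trL A := by
  ext I J
  rw [trL_apply, Matrix.mul_apply]
  simp only [trL_apply, Finset.mul_sum]
  rw [Finset.sum_comm]
  refine Finset.sum_congr rfl fun c _ => ?_
  rw [Matrix.mul_apply, sum_cons, Finset.sum_eq_single c]
  · refine Finset.sum_congr rfl fun K _ => ?_
    rw [consT_cons, Matrix.one_apply_eq, one_mul]
  · intro b _ hb
    refine Finset.sum_eq_zero fun K _ => ?_
    rw [consT_cons, Matrix.one_apply_ne hb.symm, zero_mul, zero_mul]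
  · intro h
    exact absurd (Finset.mem_univ _) h

theorem trL_right (X : Op n m) (A : Op n (m + 1)) : trL (A * consT 1 X) = trL A * X := by
  ext I J
  rw [trL_apply, Matrix.mul_apply]
  simp only [trL_apply, Finset.sum_mul]
  rw [Finset.sum_comm]
  refine Finset.sum_congr rfl fun c _ => ?_
  rw [Matrix.mul_apply, sum_cons, Finset.sum_eq_single c]
  · refine Finset.sum_congr rfl fun K _ => ?_
    rw [consT_cons, Matrix.one_apply_eq, one_mul]
  · intro b _ hb
    refine Finset.sum_eq_zero fun K _ => ?_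
    rw [consT_cons, Matrix.one_apply_ne hb, zero_mul, mul_zero]
  · intro h
    exact absurd (Finset.mem_univ _) h

theorem trL_comm (a : Matrix n n ℂ) (A : Op n (m + 1)) :
    trL (consT a 1 * A) = trL (A * consT a 1) := by
  ext I J
  rw [trL_apply, trL_apply]
  simp only [Matrix.mul_apply, sum_cons, consT_cons]
  have e1 : ∀ c b : n, ∑ K : Fin m → n, a c b * (1 : Op n m) I K *
      A (Fin.cons b K : Fin (m + 1) → n) (Fin.cons c J : Fin (m + 1) → n) =
      a c b * A (Fin.cons b I : Fin (m + 1) → n) (Fin.cons c J : Fin (m + 1) → n) := by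
    intro c b
    rw [Finset.sum_eq_single I]
    · rw [Matrix.one_apply_eq, mul_one]
    · intro K _ hK
      rw [Matrix.one_apply_ne hK.symm, mul_zero, zero_mul]
    · intro h
      exact absurd (Finset.mem_univ _) h
  have e2 : ∀ c b : n, ∑ K : Fin m → n,
      A (Fin.cons c I : Fin (m + 1) → n) (Fin.cons b K : Fin (m + 1) → n) *
      (a b c * (1 : Op n m) K J) =
      A (Fin.cons c I : Fin (m + 1) → n) (Fin.cons b J : Fin (m + 1) → n) * a b c := by
    intro c b
    rw [Finset.sum_eq_single J]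
    · rw [Matrix.one_apply_eq, mul_one]
    · intro K _ hK
      rw [Matrix.one_apply_ne hK, mul_zero, mul_zero]
    · intro h
      exact absurd (Finset.mem_univ _) h
  simp only [e1, e2]
  rw [Finset.sum_comm]
  exact Finset.sum_congr rfl fun _ _ => Finset.sum_congr rfl fun _ _ => mul_comm _ _

theorem trL_conj (a b : Matrix n n ℂ) (X Y : Op n m) (A : Op n (m + 1)) (hba : b * a = 1) :
    trL (consT a X * A * consT b Y) = X * trL A * Y := by
  have h1 : consT a X = consT 1 X * consT a 1 := by rw [consT_mul, one_mul, mul_one]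
  have h2 : consT b Y = consT b 1 * consT 1 Y := by rw [consT_mul, one_mul, mul_one]
  have h3 : consT a X * A * consT b Y =
      consT 1 X * ((consT a 1 * (A * consT b 1)) * consT 1 Y) := by
    rw [h1, h2]
    simp only [Matrix.mul_assoc]
  rw [h3, trL_left, trL_right, trL_comm, Matrix.mul_assoc A, consT_mul, hba, mul_one,
    consT_one_one, Matrix.mul_one, Matrix.mul_assoc]

theorem perm_comm_tpow (σ : Equiv.Perm (Fin m)) (g : Matrix n n ℂ) :
    perm σ * tpow g m = tpow g m * perm σ := by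
  ext I J
  rw [perm_mul_apply, mul_perm_apply]
  unfold tpow
  rw [← Equiv.prod_comp σ]
  exact Finset.prod_congr rfl fun i _ => by simp

/-- The change of the basis, abstract form. -/
theorem trf (S : ∀ m, Submodule ℂ (Op n m)) (one_mem : ∀ m, (1 : Op n m) ∈ S m)
    (mul_mem : ∀ {m} {A B : Op n m}, A ∈ S m → B ∈ S m → A * B ∈ S m)
    (oneT_mem : ∀ {m} {B : Op n m}, B ∈ S m → oneT B ∈ S (m + 1))
    (sw_mem : ∀ m, perm (Equiv.swap (0 : Fin (m + 2)) 1) ∈ S (m + 2))
    (trL_mem : ∀ {m} {A : Op n (m + 1)}, A ∈ S (m + 1) → trL A ∈ S m)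
    (Q : Matrix n n ℂ) (hQ : Q.PosDef)
    (star_mem : ∀ m, ∀ A ∈ S m, tpow Q⁻¹ m * Aᴴ * tpow Q m ∈ S m) :
    ∃ (P : Matrix n n ℂ) (T : TSys n), IsUnit P.det ∧ Pᴴ * Q * P = 1 ∧
      ∀ m (B : Op n m), B ∈ T.S m ↔ ∃ A ∈ S m, tpow P⁻¹ m * A * tpow P m = B := by
  obtain ⟨B, hB, hBQ⟩ := CStarAlgebra.isStrictlyPositive_iff_eq_star_mul_self.mp
    hQ.isStrictlyPositive
  have hBd : IsUnit B.det := (Matrix.isUnit_iff_isUnit_det B).mp hB
  set P := B⁻¹ with hP
  have hPd : IsUnit P.det := by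
    rw [hP, Matrix.isUnit_nonsing_inv_det_iff]
    exact hBd
  have hPi : P⁻¹ = B := by rw [hP, Matrix.nonsing_inv_nonsing_inv _ hBd]
  have hQ1 : Q = (P⁻¹)ᴴ * P⁻¹ := by rw [hPi, hBQ]; rfl
  have hPP : P⁻¹ * P = 1 := Matrix.nonsing_inv_mul _ hPd
  have hPP' : P * P⁻¹ = 1 := Matrix.mul_nonsing_inv _ hPd
  have hHH : Pᴴ * (P⁻¹)ᴴ = 1 := by
    rw [← Matrix.conjTranspose_mul, hPP, Matrix.conjTranspose_one]
  have hHH' : (P⁻¹)ᴴ * Pᴴ = 1 := by
    rw [← Matrix.conjTranspose_mul, hPP', Matrix.conjTranspose_one]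
  have hQi : Q⁻¹ = P * Pᴴ := by
    apply Matrix.inv_eq_right_inv
    rw [hQ1, Matrix.mul_assoc, ← Matrix.mul_assoc P⁻¹, hPP, Matrix.one_mul, hHH']
  have hE : ∀ m, tpow P m * tpow P⁻¹ m = 1 := fun m => tpow_mul_inv P hPd
  have hE' : ∀ m, tpow P⁻¹ m * tpow P m = 1 := fun m => tpow_inv_mul P hPd
  let c : ∀ m, Op n m →ₗ[ℂ] Op n m := fun m =>
    { toFun := fun A => tpow P⁻¹ m * A * tpow P m
      map_add' := fun A B => by rw [mul_add, add_mul]
      map_smul' := fun r A => by rw [Matrix.mul_smul, Matrix.smul_mul, RingHom.id_apply] }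
  have hc : ∀ m A, c m A = tpow P⁻¹ m * A * tpow P m := fun m A => rfl
  obtain ⟨T, hT⟩ := t_PRE n
    { S := fun m => (S m).map (c m)
      one_mem := fun m => ⟨1, one_mem m, by rw [hc, Matrix.mul_one, hE']⟩
      mul_mem := by
        rintro m _ _ ⟨A, hA, rfl⟩ ⟨A', hA', rfl⟩
        refine ⟨A * A', mul_mem hA hA', ?_⟩
        rw [hc, hc, hc]
        calc tpow P⁻¹ m * (A * A') * tpow P m
            = tpow P⁻¹ m * A * 1 * A' * tpow P m := by
              rw [Matrix.mul_one, ← Matrix.mul_assoc (tpow P⁻¹ m)]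
          _ = _ := by
              rw [← hE m]
              simp only [Matrix.mul_assoc]
      star_mem := by
        rintro m _ ⟨A, hA, rfl⟩
        refine ⟨tpow Q⁻¹ m * Aᴴ * tpow Q m, star_mem m A hA, ?_⟩
        rw [hc, hc, Matrix.conjTranspose_mul, Matrix.conjTranspose_mul, tpow_conjTranspose,
          tpow_conjTranspose]
        have e1 : tpow P⁻¹ m * tpow Q⁻¹ m = tpow Pᴴ m := by
          rw [← tpow_mul, hQi, ← Matrix.mul_assoc, hPP, Matrix.one_mul]
        have e2 : tpow Q m * tpow P m = tpow (P⁻¹)ᴴ m := by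
          rw [← tpow_mul, hQ1, Matrix.mul_assoc, hPP, Matrix.mul_one]
        rw [← e1, ← e2]
        simp only [Matrix.mul_assoc]
      oneT_mem := by
        rintro m _ ⟨A, hA, rfl⟩
        refine ⟨oneT A, oneT_mem hA, ?_⟩
        rw [hc, hc, oneT_eq, oneT_eq, tpow_succ, tpow_succ, consT_mul, consT_mul, mul_one, hPP]
      sw_mem := by
        intro m
        refine ⟨_, sw_mem m, ?_⟩
        rw [hc, Matrix.mul_assoc, perm_comm_tpow, ← Matrix.mul_assoc, hE', Matrix.one_mul]
      trL_mem := by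
        rintro m _ ⟨A, hA, rfl⟩
        refine ⟨trL A, trL_mem hA, ?_⟩
        rw [hc, hc, tpow_succ, tpow_succ, trL_conj _ _ _ _ _ hPP'] }
  refine ⟨P, T, hPd, ?_, ?_⟩
  · rw [hQ1, ← Matrix.mul_assoc, hHH, Matrix.one_mul, hPP]
  · intro m B'
    rw [hT]
    rfl

end Pool.Agent.E8helper26.TX
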