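import Mathlib
import Pool.Agent.E8helper1.TX.Asm
import Pool.Agent.E8helper26.TX.TRF0

/-!
# Systems of tensors: the piece TRF
-/

set_option autoImplicit false

namespace Pool.Agent.E8helper26.TX

open Pool.Agent.E8helper1.TX

theorem t_TRF : S_TRF := by
  intro n _ _ P0 Q hQ hs
  obtain ⟨P, T, h1, h2, h3⟩ := trf P0.S P0.one_mem P0.mul_mem P0.oneT_mem P0.sw_mem P0.trL_mem
    Q hQ hs
  refine ⟨P, T, h1, h2, fun m => ?_⟩
  ext B
  rw [h3 m B]
  rfl

end Pool.Agent.E8helper26.TX
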